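import Pool.Agent.X171.CcsDelta

/-!
# No ccs Delta-points under norm-bounded finite-rank approximation of the identity

A Banach space with property (A) contains no ccs `Δ`-point (answer to Q1 of MP_d10958_an).

Proof idea. Every ccs `Δ`-point is a super `Δ`-point (`Pool.Agent.X171.CcsDelta.main`: take a finite
net of slices through the point, a norming functional, and the convex hull of the components).
If `‖x - T x‖` is small and `T` has finite rank, then `‖T y - T x‖ < ε` is a weak neighbourhood of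
`x`, and there `‖x - y‖ ≤ ‖x - T x‖ + ‖T x - T y‖ + ‖(1 - T) y‖` is bounded away from `2`.
-/

set_option autoImplicit false

open Set Metric

namespace Pool.Agent.Results.MP_d10958_an.NoCcsDelta

variable (𝕜 : Type*) [RCLike 𝕜] {X : Type*} [NormedAddCommGroup X] [NormedSpace 𝕜 X]

/-- The slice `S(f, δ)` of the closed unit ball `B`: the points of `B` with `Re (f x) > M - δ`,
where `M` is the supremum of `Re f` over `B`. -/
def slice (f : X →L[𝕜] 𝕜) (δ : ℝ) : Set X :=
  {x | ‖x‖ ≤ 1 ∧ sSup ((fun y => RCLike.re (f y)) '' closedBall (0 : X) 1) - δ < RCLike.re (f x)}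

/-- `C` is a convex combination of slices of the closed unit ball. -/
def IsCcs (C : Set X) : Prop :=
  ∃ (n : ℕ) (l : Fin n → ℝ) (f : Fin n → (X →L[𝕜] 𝕜)) (δ : Fin n → ℝ), 1 ≤ n ∧
    (∀ i, 0 < l i ∧ l i ≤ 1) ∧ ∑ i, l i = 1 ∧ (∀ i, 0 < δ i) ∧
    C = {z | ∃ y : Fin n → X, (∀ i, y i ∈ slice 𝕜 (f i) (δ i)) ∧ z = ∑ i, (l i : 𝕜) • y i}

/-- `x` is a ccs `Δ`-point: `x` is in the unit sphere and the least upper bound of `‖x - y‖` over
`y ∈ C` is `2` for every convex combination of slices `C` which contains `x`. -/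
def IsCcsDelta (x : X) : Prop :=
  ‖x‖ = 1 ∧ ∀ C : Set X, IsCcs 𝕜 C → x ∈ C → IsLUB ((fun y => ‖x - y‖) '' C) 2

variable (X) in
/-- Property (A): there is a set `A` of bounded operators of finite rank such that `‖Id - T‖`,
`T ∈ A`, is bounded by a constant `c < 2`, and every `x` is approximated by the points `T x`. -/
def PropertyA : Prop :=
  ∃ A : Set (X →L[𝕜] X), (∀ T ∈ A, FiniteDimensional 𝕜 (LinearMap.range T.toLinearMap)) ∧
    (∃ c : ℝ, c < 2 ∧ ∀ T ∈ A, ‖ContinuousLinearMap.id 𝕜 X - T‖ ≤ c) ∧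
    ∀ ε : ℝ, 0 < ε → ∀ x : X, ∃ T ∈ A, ‖x - T x‖ < ε

/-- The supremum of `Re f` over the ball is the norm of `f`. -/
lemma sSup_re (f : X →L[𝕜] 𝕜) :
    sSup ((fun y => RCLike.re (f y)) '' closedBall (0 : X) 1) = ‖f‖ := by
  have hle : ∀ y ∈ closedBall (0 : X) 1, RCLike.re (f y) ≤ ‖f‖ := by
    intro y hy
    rw [mem_closedBall_zero_iff] at hy
    calc RCLike.re (f y) ≤ ‖f y‖ := RCLike.re_le_norm _
      _ ≤ ‖f‖ * ‖y‖ := f.le_opNorm y
      _ ≤ ‖f‖ := mul_le_of_le_one_right (norm_nonneg _) hy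
  have hbdd : BddAbove ((fun y => RCLike.re (f y)) '' closedBall (0 : X) 1) := by
    refine ⟨‖f‖, ?_⟩
    rintro _ ⟨y, hy, rfl⟩
    exact hle y hy
  have hne : ((fun y => RCLike.re (f y)) '' closedBall (0 : X) 1).Nonempty :=
    ⟨_, 0, by simp, rfl⟩
  apply le_antisymm
  · apply csSup_le hne
    rintro _ ⟨y, hy, rfl⟩
    exact hle y hy
  · rw [← f.sSup_unitClosedBall_eq_norm]
    refine csSup_le (Set.Nonempty.image _ ⟨0, by simp⟩) ?_
    rintro _ ⟨y, hy, rfl⟩
    simp only
    by_cases h0 : f y = 0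
    · rw [h0, norm_zero]
      exact le_csSup hbdd ⟨0, by simp, by simp⟩
    · have hn : ‖f y‖ ≠ 0 := norm_ne_zero_iff.2 h0
      apply le_csSup hbdd
      refine ⟨((starRingEnd 𝕜) (f y) / (‖f y‖ : 𝕜)) • y, ?_, ?_⟩
      · rw [mem_closedBall_zero_iff] at hy ⊢
        rw [norm_smul, norm_div, RCLike.norm_conj, RCLike.norm_ofReal, abs_norm, div_self hn,
          one_mul]
        exact hy
      · simp only [map_smul, smul_eq_mul]
        rw [div_mul_eq_mul_div, RCLike.conj_mul, ← RCLike.ofReal_pow, ← RCLike.ofReal_div,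
          RCLike.ofReal_re]
        field_simp

/-- A Banach space with property (A) contains no ccs `Δ`-point. -/
theorem result [CompleteSpace X] (hA : PropertyA 𝕜 X) (x : X) : ¬ IsCcsDelta 𝕜 x := by
  intro hx
  obtain ⟨A, hfin, ⟨c, hc2, hc⟩, happ⟩ := hA
  -- `x` is a super Delta-point
  have hsup : Pool.Agent.X171.CcsDelta.IsSuperDelta 𝕜 x := by
    apply Pool.Agent.X171.CcsDelta.main
    refine ⟨hx.1, ?_⟩
    rintro C ⟨n, l, f, α, hn, hl, hl1, hf, hC⟩ hxC
    apply hx.2 C _ hxC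
    refine ⟨n, l, f, α, hn, ?_, hl1, fun i => (hf i).2, ?_⟩
    · intro i
      refine ⟨hl i, ?_⟩
      rw [← hl1]
      exact Finset.single_le_sum (fun j _ => (hl j).le) (Finset.mem_univ i)
    · rw [hC]
      have : ∀ i, slice 𝕜 (f i) (α i) = Pool.Agent.X171.CcsDelta.slice 𝕜 (f i) (α i) := by
        intro i
        rw [slice, sSup_re, (hf i).1]
        rfl
      simp only [this]
  set ε : ℝ := (2 - c) / 4 with hε
  have hε0 : 0 < ε := by rw [hε]; linarith
  obtain ⟨T, hTA, hT⟩ := happ ε hε0 x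
  have := hfin T hTA
  -- `T` is continuous from the weak topology to the norm topology
  have hcont : Continuous (fun y : WeakSpace 𝕜 X => T ((toWeakSpace 𝕜 X).symm y)) := by
    let F := LinearMap.range T.toLinearMap
    let b := Module.finBasis 𝕜 F
    let T' : X →L[𝕜] F := T.codRestrict F (fun y => ⟨y, rfl⟩)
    let φ : Fin (Module.finrank 𝕜 F) → (X →L[𝕜] 𝕜) := fun i =>
      (LinearMap.toContinuousLinearMap (b.coord i)) ∘L T'
    have h1 : ∀ y : X, T y = ∑ i, φ i y • ((b i : F) : X) := by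
      intro y
      have h2 := b.sum_repr (T' y)
      have h3 : ((∑ i, (b.repr (T' y)) i • b i : F) : X) = ((T' y : F) : X) := by rw [h2]
      rw [Submodule.coe_sum] at h3
      change _ = T y at h3
      rw [← h3]
      rfl
    have h4 : (fun y : WeakSpace 𝕜 X => T ((toWeakSpace 𝕜 X).symm y)) =
        fun y => ∑ i, φ i ((toWeakSpace 𝕜 X).symm y) • ((b i : F) : X) := by
      funext y
      exact h1 _
    rw [h4]
    apply continuous_finsetSum
    intro i _
    apply Continuous.smul _ continuous_const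
    exact WeakBilin.eval_continuous (topDualPairing 𝕜 X).flip (φ i)
  have hW := hsup.2 (closedBall 0 1 ∩ toWeakSpace 𝕜 X ⁻¹'
    {y : WeakSpace 𝕜 X | ‖T ((toWeakSpace 𝕜 X).symm y) - T x‖ < ε})
    ⟨_, isOpen_lt (hcont.sub continuous_const).norm continuous_const, rfl⟩
    ⟨by simp [hx.1], by simpa using hε0⟩
  have hub : (2 : ℝ) ≤ 2 * ε + c := by
    apply hW.2
    rintro _ ⟨y, ⟨hy1, hy2⟩, rfl⟩
    rw [mem_closedBall_zero_iff] at hy1
    have hy3 : ‖T y - T x‖ < ε := by simpa using hy2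
    have h5 : ‖y - T y‖ ≤ c := by
      calc ‖y - T y‖ = ‖(ContinuousLinearMap.id 𝕜 X - T) y‖ := by simp
        _ ≤ ‖ContinuousLinearMap.id 𝕜 X - T‖ * ‖y‖ := ContinuousLinearMap.le_opNorm _ _
        _ ≤ c * 1 := mul_le_mul (hc T hTA) hy1 (norm_nonneg _)
            ((norm_nonneg _).trans (hc T hTA))
        _ = c := mul_one c
    calc ‖x - y‖ = ‖(x - T x) - (T y - T x) - (y - T y)‖ := by congr 1; abel
      _ ≤ ‖(x - T x) - (T y - T x)‖ + ‖y - T y‖ := norm_sub_le _ _
      _ ≤ ‖x - T x‖ + ‖T y - T x‖ + ‖y - T y‖ := by gcongr; exact norm_sub_le _ _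
      _ ≤ 2 * ε + c := by linarith
  rw [hε] at hub
  linarith

end Pool.Agent.Results.MP_d10958_an.NoCcsDelta
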